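import Pool.Agent.Helper79.TL.Core
import Pool.Agent.Helper67.TL.B1

/-!
# TL-B3: the relations between the Hecke operators (MP_5c3aa2_al)
-/

set_option autoImplicit false
set_option linter.unusedSectionVars false
set_option linter.unusedSimpArgs false

open Module

namespace Pool.Agent.Helper79.TL.B3

open Pool.Agent.Helper79.TL GPre

section Rep

variable {K : Type} [Field K] {G : Type} [Group G] {D : GPre G} {V : Type} [AddCommGroup V]
  [Module K V] (ρ : Representation K G V) (hD : D.Good)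

/-- The operator on `Vl` attached to a type. -/
def val : Ty → Module.End K ↥(D.Vl ρ)
  | .H ε k e => ((-1 : K) ^ ε * 16) • (tM ρ hD ^ k * sM ρ hD ^ e)
  | .X ε k l n => ((-1 : K) ^ ε) • (tM ρ hD ^ k * YM ρ hD l * tM ρ hD ^ n)
  | .O => 0

lemma E_val (h2 : (2 : K) ≠ 0) {g : G} {T : Ty} (hg : D.Is g T) (v : ↥(D.Vl ρ)) :
    D.E ρ (ρ g v) = ((val ρ hD T v : ↥(D.Vl ρ)) : V) := by
  cases T with
  | H ε k e => exact B1.E_H ρ hD hg v
  | X ε k l n => exact B1.E_X ρ hD hg v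
  | O => exact B1.E_O ρ hD h2 hg v

/-- the general product formula -/
lemma prod_formula (h2 : (2 : K) ≠ 0) (i j : Fin 3) (c : ℕ) (T : Fin 16 → Ty)
    (hT : ∀ m, D.Is (D.x i * D.t ^ c * D.r m * D.x j) (T m)) :
    YM ρ hD i * tM ρ hD ^ c * YM ρ hD j = ∑ m, val ρ hD (T m) := by
  apply LinearMap.ext
  intro v
  apply Subtype.ext
  rw [Module.End.mul_apply, Module.End.mul_apply, YM_coe, B1.tM_pow_coe, YM_coe, E_apply (D := D)
    (ρ := ρ) (v := ρ (D.x j) (v : V)), map_sum, map_sum, map_sum, LinearMap.sum_apply,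
    AddSubmonoidClass.coe_finsetSum]
  refine Finset.sum_congr rfl fun m _ => ?_
  rw [← E_val ρ hD h2 (hT m) v, rho_mul, rho_mul, rho_mul]

lemma prod_formula_one (h2 : (2 : K) ≠ 0) (i j : Fin 3) (T : Fin 16 → Ty)
    (hT : ∀ m, D.Is (D.x i * D.t ^ 1 * D.r m * D.x j) (T m)) :
    YM ρ hD i * tM ρ hD * YM ρ hD j = ∑ m, val ρ hD (T m) := by
  have h := prod_formula ρ hD h2 i j 1 T hT
  rwa [pow_one] at h

lemma prod_formula_zero (h2 : (2 : K) ≠ 0) (i j : Fin 3) (T : Fin 16 → Ty)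
    (hT : ∀ m, D.Is (D.x i * D.r m * D.x j) (T m)) :
    YM ρ hD i * YM ρ hD j = ∑ m, val ρ hD (T m) := by
  have h := prod_formula ρ hD h2 i j 0 T (by
    intro m
    have h1 := hT m
    rwa [pow_zero, mul_one])
  rwa [pow_zero, mul_one] at h

/-- scalars in the endomorphism ring -/
lemma sixteen_smul (X : Module.End K ↥(D.Vl ρ)) : (16 : K) • X = 16 * X := by
  rw [← Nat.cast_ofNat (R := K), Nat.cast_smul_eq_nsmul, nsmul_eq_mul, Nat.cast_ofNat]

lemma neg_smul' (c : K) (X : Module.End K ↥(D.Vl ρ)) : (-c) • X = -(c • X) := by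
  apply LinearMap.ext
  intro v
  rw [LinearMap.smul_apply, LinearMap.neg_apply, LinearMap.smul_apply, neg_smul]

lemma one_smul' (X : Module.End K ↥(D.Vl ρ)) : (1 : K) • X = X := by
  apply LinearMap.ext
  intro v
  rw [LinearMap.smul_apply, one_smul]

lemma val_H0 (k e : ℕ) : val ρ hD (.H 0 k e) = 16 * (tM ρ hD ^ k * sM ρ hD ^ e) := by
  rw [val, pow_zero, one_mul, sixteen_smul]

lemma val_H1 (k e : ℕ) : val ρ hD (.H 1 k e) = -(16 * (tM ρ hD ^ k * sM ρ hD ^ e)) := by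
  rw [val, pow_one, neg_one_mul, neg_smul', sixteen_smul]

lemma val_X0 (k : ℕ) (l : Fin 3) (n : ℕ) :
    val ρ hD (.X 0 k l n) = tM ρ hD ^ k * YM ρ hD l * tM ρ hD ^ n := by
  rw [val, pow_zero, one_smul']

lemma val_X1 (k : ℕ) (l : Fin 3) (n : ℕ) :
    val ρ hD (.X 1 k l n) = -(tM ρ hD ^ k * YM ρ hD l * tM ρ hD ^ n) := by
  rw [val, pow_one, neg_smul', one_smul']

lemma val_O : val ρ hD .O = 0 := rfl

lemma sum16 {A : Type} [AddCommMonoid A] (f : Fin 16 → A) :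
    ∑ m, f m = f 0 + f 1 + f 2 + f 3 + f 4 + f 5 + f 6 + f 7 + f 8 + f 9 + f 10 + f 11 + f 12 +
      f 13 + f 14 + f 15 := by
  simp only [Fin.sum_univ_succ, Fin.sum_univ_zero]
  simp [Fin.succ_zero_eq_one]
  abel

theorem hmod_c0 (h2 : (2 : K) ≠ 0) :
    YM ρ hD 0 * YM ρ hD 0 = 16 + 16 * sM ρ hD - 4 * YM ρ hD 1 ∧
    YM ρ hD 1 * YM ρ hD 0 = - (4 * YM ρ hD 0) - 4 * YM ρ hD 1 ∧
    YM ρ hD 1 * YM ρ hD 1 = 16 + 16 * sM ρ hD - 4 * YM ρ hD 0 ∧
    YM ρ hD 2 * YM ρ hD 2 = 16 - 16 * sM ρ hD - 4 * YM ρ hD 2 := by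
  refine ⟨?_, ?_, ?_, ?_⟩
  · rw [prod_formula_zero ρ hD h2 0 0 T000 hD.rel000, sum16]
    simp [T000, val_H0, val_H1, val_X0, val_X1, val_O]
    noncomm_ring
  · rw [prod_formula_zero ρ hD h2 1 0 T100 hD.rel100, sum16]
    simp [T100, val_H0, val_H1, val_X0, val_X1, val_O]
    noncomm_ring
  · rw [prod_formula_zero ρ hD h2 1 1 T101 hD.rel101, sum16]
    simp [T101, val_H0, val_H1, val_X0, val_X1, val_O]
    noncomm_ring
  · rw [prod_formula_zero ρ hD h2 2 2 T202 hD.rel202, sum16]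
    simp [T202, val_H0, val_H1, val_X0, val_X1, val_O]
    noncomm_ring

lemma x_t_pow (h2 : (2 : K) ≠ 0) (j : Fin 3) :
    YM ρ hD j * sM ρ hD = val ρ hD (.X (if j = 2 then 1 else 0) 0 j 0) := by
  apply LinearMap.ext
  intro v
  apply Subtype.ext
  rw [← E_val ρ hD h2 (hD.x_s j) v, Module.End.mul_apply, YM_coe, sM_coe, rho_mul]

lemma s_Y (j : Fin 3) : sM ρ hD * YM ρ hD j = YM ρ hD j * sM ρ hD := by
  apply LinearMap.ext
  intro v
  apply Subtype.ext
  obtain ⟨a, b, hab⟩ := hD.s_x j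
  rw [Module.End.mul_apply, Module.End.mul_apply, YM_coe, sM_coe, sM_coe, YM_coe, s_E ρ hD,
    ← rho_mul, hab, rho_mul, rho_mul, rho_mul, E_r ρ hD, (s_mem ρ hD v.2).1 b]

theorem hmod (h2 : (2 : K) ≠ 0) : HMod (tM ρ hD) (sM ρ hD) (YM ρ hD) := by
  have hYs0 : YM ρ hD 0 * sM ρ hD = YM ρ hD 0 := by
    rw [x_t_pow ρ hD h2]
    simp [val_X0]
  have hYs1 : YM ρ hD 1 * sM ρ hD = YM ρ hD 1 := by
    rw [x_t_pow ρ hD h2]
    simp [val_X0]
  have hYs2 : YM ρ hD 2 * sM ρ hD = -YM ρ hD 2 := by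
    rw [x_t_pow ρ hD h2]
    simp [val_X1]
  obtain ⟨h000, h100, h101, h202⟩ := hmod_c0 ρ hD h2
  refine
    { t5 := ?_, ss := ?_, st := ?_, sY0 := ?_, Y0s := hYs0, sY1 := ?_, Y1s := hYs1, sY2 := ?_,
      Y2s := hYs2, r000 := h000, r100 := h100, r101 := h101, r202 := h202, r010 := ?_, r020 := ?_,
      r110 := ?_, r120 := ?_, r210 := ?_, r220 := ?_ }
  · apply LinearMap.ext
    intro v
    apply Subtype.ext
    rw [B1.tM_pow_coe, hD.t_pow, map_one]
    rfl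
  · apply LinearMap.ext
    intro v
    apply Subtype.ext
    rw [Module.End.mul_apply, sM_coe, sM_coe, ← rho_mul, hD.s_sq, map_one]
    rfl
  · apply LinearMap.ext
    intro v
    apply Subtype.ext
    rw [Module.End.mul_apply, Module.End.mul_apply, sM_coe, tM_coe, B1.tM_pow_coe, sM_coe,
      ← rho_mul, hD.s_t, rho_mul]
  · rw [s_Y, hYs0]
  · rw [s_Y, hYs1]
  · rw [s_Y, hYs2]
  · rw [prod_formula_one ρ hD h2 0 0 T010 hD.rel010, sum16]
    simp [T010, val_X0, val_X1, mul_add, add_mul, mul_sub, sub_mul]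
    abel
  · rw [prod_formula ρ hD h2 0 0 2 T020 hD.rel020, sum16]
    simp [T020, val_X0, val_X1, mul_add, add_mul, mul_sub, sub_mul]
    abel
  · rw [prod_formula_one ρ hD h2 1 0 T110 hD.rel110, sum16]
    simp [T110, val_X0, val_X1, mul_add, add_mul, mul_sub, sub_mul]
    abel
  · rw [prod_formula ρ hD h2 1 0 2 T120 hD.rel120, sum16]
    simp [T120, val_X0, val_X1, mul_add, add_mul, mul_sub, sub_mul]
    abel
  · rw [prod_formula_one ρ hD h2 2 0 T210 hD.rel210, sum16]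
    simp [T210, val_X0, val_X1, mul_add, add_mul, mul_sub, sub_mul]
    abel
  · rw [prod_formula ρ hD h2 2 0 2 T220 hD.rel220, sum16]
    simp [T220, val_X0, val_X1, mul_add, add_mul, mul_sub, sub_mul]
    abel

end Rep

end Pool.Agent.Helper79.TL.B3
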